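import Pool.Agent.K1H80.KA.Stm

/-!
# The Jacobian rows and the rows of the hyperconnectivity matrix
-/

set_option autoImplicit false

namespace Pool.Agent.K1H6.KA

open MvPolynomial Pool.Agent.KA

theorem jac0 (K : Type) [Field K] (n : ℕ) (p : Fin n × Fin n) (k : Fin n) :
    pderiv (k, (0 : Fin 2)) (fm K n p) =
      (if k = p.1 then X (p.2, 1) else 0) - (if k = p.2 then X (p.1, 1) else 0) := by
  unfold fm
  rw [map_sub, pderiv_mul, pderiv_mul, pderiv_X, pderiv_X, pderiv_X, pderiv_X]
  simp only [Pi.single_apply, Prod.mk.injEq]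
  by_cases h1 : k = p.1 <;> by_cases h2 : k = p.2 <;> simp [h1, h2, eq_comm]

theorem jac1 (K : Type) [Field K] (n : ℕ) (p : Fin n × Fin n) (k : Fin n) :
    pderiv (k, (1 : Fin 2)) (fm K n p) =
      (if k = p.2 then X (p.1, 0) else 0) - (if k = p.1 then X (p.2, 0) else 0) := by
  unfold fm
  rw [map_sub, pderiv_mul, pderiv_mul, pderiv_X, pderiv_X, pderiv_X, pderiv_X]
  simp only [Pi.single_apply, Prod.mk.injEq]
  by_cases h1 : k = p.1 <;> by_cases h2 : k = p.2 <;> simp [h1, h2, eq_comm]

theorem row0 (K : Type) [Field K] (n : ℕ) (p : Fin n × Fin n) (hp : p.1 ≠ p.2) (k : Fin n) :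
    row K n p (k, 0) = -algebraMap (MvPolynomial (Fin n × Fin 2) K)
      (FractionRing (MvPolynomial (Fin n × Fin 2) K)) (pderiv (k, (1 : Fin 2)) (fm K n p)) := by
  rw [jac1]
  unfold row vec
  by_cases h1 : k = p.1
  · have h2 : k ≠ p.2 := fun h => hp (h1.symm.trans h)
    simp [h1, hp]
  · by_cases h2 : k = p.2
    · simp [h2, Ne.symm hp]
    · simp [h1, h2]

theorem row1 (K : Type) [Field K] (n : ℕ) (p : Fin n × Fin n) (hp : p.1 ≠ p.2) (k : Fin n) :
    row K n p (k, 1) = algebraMap (MvPolynomial (Fin n × Fin 2) K)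
      (FractionRing (MvPolynomial (Fin n × Fin 2) K)) (pderiv (k, (0 : Fin 2)) (fm K n p)) := by
  rw [jac0]
  unfold row vec
  by_cases h1 : k = p.1
  · simp [h1, hp]
  · by_cases h2 : k = p.2
    · simp [h2, Ne.symm hp]
    · simp [h1, h2]

theorem rowjac : ROWStm := by
  intro K _ n ι _ a b hab h
  rw [Fintype.linearIndependent_iff] at h ⊢
  intro g hg
  refine h g ?_
  have hpt : ∀ s : Fin n × Fin 2, ∑ e, g e * algebraMap (MvPolynomial (Fin n × Fin 2) K)
      (FractionRing (MvPolynomial (Fin n × Fin 2) K)) (pderiv s (fm K n (a e, b e))) = 0 := by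
    intro s
    have := congrFun hg s
    rw [Finset.sum_apply] at this
    simpa only [Pi.smul_apply, smul_eq_mul, Pi.zero_apply] using this
  funext s
  obtain ⟨k, t⟩ := s
  rw [Finset.sum_apply]
  simp only [Pi.smul_apply, smul_eq_mul, Pi.zero_apply]
  fin_cases t
  · have h1 := hpt (k, 1)
    calc ∑ e, g e * row K n (a e, b e) (k, 0) = -∑ e, g e *
          algebraMap (MvPolynomial (Fin n × Fin 2) K)
          (FractionRing (MvPolynomial (Fin n × Fin 2) K)) (pderiv (k, (1 : Fin 2))
            (fm K n (a e, b e))) := by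
          rw [← Finset.sum_neg_distrib]
          refine Finset.sum_congr rfl fun e _ => ?_
          rw [row0 K n (a e, b e) (hab e) k, mul_neg]
      _ = 0 := by rw [h1, neg_zero]
  · have h1 := hpt (k, 0)
    calc ∑ e, g e * row K n (a e, b e) (k, 1) = ∑ e, g e *
          algebraMap (MvPolynomial (Fin n × Fin 2) K)
          (FractionRing (MvPolynomial (Fin n × Fin 2) K)) (pderiv (k, (0 : Fin 2))
            (fm K n (a e, b e))) := by
          refine Finset.sum_congr rfl fun e _ => ?_
          rw [row1 K n (a e, b e) (hab e) k]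
      _ = 0 := h1

end Pool.Agent.K1H6.KA
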